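import Pool.Agent.Lib.MP_603301_co.Johnson

set_option autoImplicit false

open Finset Pool.Agent.Lib.MP_603301_co

namespace Pool.Agent.Lib.MP_603301_co.Old.HighDim

/-- **Complete answer in high dimension.** If `t ≥ 1`, `k ≥ 2 t² + 8 t` and `2 ≤ n ≤ C(k, t)`,
then the value set is the full interval from its minimum `g_k(n)` to `n (n - 1) / 2`. -/
theorem result (k t n : ℕ) (ht : 1 ≤ t) (hk : 2 * t ^ 2 + 8 * t ≤ k) (hn : 2 ≤ n)
    (hnk : n ≤ k.choose t) :
    valueSet k n = Set.Icc (sInf (valueSet k n)) (n.choose 2) := by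
  classical
  have hk10 : 10 ≤ k := by nlinarith
  have hmax : n.choose 2 ∈ valueSet k n := by
    apply upper_range k n _ (by omega) hn _ le_rfl
    have : n - 1 ≤ n.choose 2 := by
      rw [Nat.choose_two_right, Nat.le_div_iff_mul_le (by norm_num)]
      calc (n - 1) * 2 ≤ (n - 1) * n := Nat.mul_le_mul_left _ hn
        _ = n * (n - 1) := by ring
    omega
  have hne : (valueSet k n).Nonempty := ⟨_, hmax⟩
  set s := sInf (valueSet k n) with hs
  have hsmem : s ∈ valueSet k n := Nat.sInf_mem hne
  -- s ≤ t
  have hst : s ≤ t := by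
    set T : Finset (EuclideanSpace ℝ (Fin k)) := (JS Finset.univ t).image emb with hT
    have hTc : n ≤ T.card := by
      rw [hT, Finset.card_image_of_injective _ emb_injective, card_JS, Finset.card_univ,
        Fintype.card_fin]
      exact hnk
    have hTd : (dset T).card = t := by
      rw [hT, card_dset_emb, card_sset_JS]
      rw [Finset.card_univ, Fintype.card_fin]
      nlinarith
    obtain ⟨T', hT'1, hT'2⟩ := Finset.exists_subset_card_eq hTc
    have h1 : (dset T').card ∈ valueSet k n := by
      rw [mem_valueSet_iff]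
      exact ⟨T', hT'2, rfl⟩
    calc s ≤ (dset T').card := Nat.sInf_le h1
      _ ≤ (dset T).card := Finset.card_le_card (dset_mono hT'1)
      _ = t := hTd
  -- s ≥ 1
  have hs1 : 1 ≤ s := by
    rw [mem_valueSet_iff] at hsmem
    obtain ⟨S, hS1, hS2⟩ := hsmem
    have hcard : 1 < S.card := by omega
    obtain ⟨x, hx, y, hy, hxy⟩ := Finset.one_lt_card.mp hcard
    rw [← hS2, Nat.one_le_iff_ne_zero, Ne, Finset.card_eq_zero]
    intro he
    have : dist x y ∈ dset S := by
      rw [mem_dset]
      exact ⟨x, hx, y, hy, hxy, rfl⟩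
    rw [he] at this
    simp at this
  have hsk : 2 * s ^ 2 + 8 * s ≤ k := by
    have : s ^ 2 ≤ t ^ 2 := Nat.pow_le_pow_left hst 2
    omega
  -- bound on n
  have hnb : n ≤ (k - 2).choose (s + 1) := by
    have h1 : n ≤ (k + s + 1).choose s := by
      rw [mem_valueSet_iff] at hsmem
      obtain ⟨S, hS1, hS2⟩ := hsmem
      have := card_le_of_dset S
      rw [hS1, hS2] at this
      exact this
    exact h1.trans (choose_compare k s hs1 hsk)
  have h2s : 2 * (s + 1) ≤ k - 2 := by
    have : 2 * (s + 1) + 2 ≤ k := by nlinarith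
    omega
  ext d
  rw [Set.mem_Icc]
  constructor
  · intro hd
    exact ⟨Nat.sInf_le hd, valueSet_le hd⟩
  · rintro ⟨h1, h2⟩
    by_cases hcase : n ≤ 2 * d + 1
    · exact upper_range k n d (by omega) hn hcase h2
    push Not at hcase
    rcases h1.lt_or_eq with hlt | heq
    · -- d ≥ s + 1
      have main : ∃ S : Finset (EuclideanSpace ℝ (Fin k)), n ≤ S.card ∧ (dset S).card = d := by
        rcases (show s + 1 ≤ d from hlt).lt_or_eq with hlt' | heq'
        · obtain ⟨S, hS1, hS2⟩ := johnson_arc k (s + 1) (d - (s + 2)) (by omega) h2s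
          exact ⟨S, hnb.trans hS1, by rw [hS2]; omega⟩
        · refine ⟨(JS Finset.univ (s + 1)).image emb, ?_, ?_⟩
          · rw [Finset.card_image_of_injective _ emb_injective, card_JS, Finset.card_univ,
              Fintype.card_fin]
            exact hnb.trans (Nat.choose_le_choose _ (by omega))
          · rw [card_dset_emb, card_sset_JS, heq']
            rw [Finset.card_univ, Fintype.card_fin]
            omega
      obtain ⟨S, hS1, hS2⟩ := main
      rw [mem_valueSet_iff]
      obtain ⟨T, -, hT1, hT2⟩ := exists_subset_card S n hS1 (by omega)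
      exact ⟨T, hT1, by rw [hT2, hS2]⟩
    · rw [← heq]
      exact hsmem

end Pool.Agent.Lib.MP_603301_co.Old.HighDim
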