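import Pool.Agent.Lib.MP_603301_co.UniL

set_option autoImplicit false

open Finset Pool.Agent.Lib.MP_603301_co

namespace Pool.Agent.Lib.MP_603301_co.Old.LatticeRange

/-- The number of positive integers `m ≤ x` that are sums of `k` squares of integers. -/
noncomputable def sumSqCount (k : ℕ) (x : ℝ) : ℕ :=
  {m : ℕ | 1 ≤ m ∧ (m : ℝ) ≤ x ∧ ∃ a : Fin k → ℤ, (m : ℤ) = ∑ i, a i ^ 2}.ncard

lemma sumSqCount_eq (k : ℕ) (x : ℝ) : sumSqCount k x = (repF k ⌊x⌋).card := by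
  unfold sumSqCount
  rw [← Set.ncard_coe_finset, ← Set.ncard_image_of_injective _ (Nat.cast_injective (R := ℤ))]
  congr 1
  ext m
  simp only [Set.mem_image, Set.mem_ofPred_eq, Finset.mem_coe, mem_repF]
  constructor
  · rintro ⟨n, ⟨h1, h2, a, h3⟩, rfl⟩
    refine ⟨⟨by exact_mod_cast h1, ?_⟩, a, h3.symm⟩
    rw [Int.le_floor]
    exact_mod_cast h2
  · rintro ⟨⟨h1, h2⟩, a, h3⟩
    obtain ⟨n, rfl⟩ := Int.eq_ofNat_of_zero_le (by linarith : 0 ≤ m)
    refine ⟨n, ⟨by exact_mod_cast h1, ?_, a, h3.symm⟩, rfl⟩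
    rw [Int.le_floor] at h2
    exact_mod_cast h2

private lemma mem_of_finset {k n d : ℕ} (hk : 2 ≤ k) (hn : 2 ≤ n) (hd : d ≤ n.choose 2)
    (h : 2 * d + 1 < n → ∃ S : Finset (EuclideanSpace ℝ (Fin k)), n ≤ S.card ∧ (dset S).card = d) :
    d ∈ valueSet k n := by
  by_cases hcase : n ≤ 2 * d + 1
  · exact upper_range k n d hk hn hcase hd
  · obtain ⟨S, hS1, hS2⟩ := h (by omega)
    refine valueSet_down hk hn hS1 ?_ hd
    rw [mem_valueSet_iff]
    exact ⟨S, rfl, hS2⟩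

/-- the case of low dimension, in terms of `n` -/
private lemma case_c {k n d : ℕ} (hk : 2 ≤ k) (hn : 2 ≤ n)
    (hd : sumSqCount k (((4 * 200 ^ 4 * 17 ^ 4 : ℕ) : ℝ) * k * (n : ℝ) ^ ((2 : ℝ) / (k : ℝ))) ≤ d)
    (hdn : 2 * d + 1 < n) :
    ∃ S : Finset (EuclideanSpace ℝ (Fin k)), n ≤ S.card ∧ (dset S).card = d := by
  have hkpos : (0 : ℝ) < k := by exact_mod_cast (by omega : 0 < k)
  have hnR : (1 : ℝ) ≤ n := by exact_mod_cast (by omega : 1 ≤ n)
  set r : ℝ := (n : ℝ) ^ ((1 : ℝ) / (k : ℝ)) with hr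
  have hr1 : 1 ≤ r := Real.one_le_rpow hnR (by positivity)
  have hr2 : r ^ 2 = (n : ℝ) ^ ((2 : ℝ) / (k : ℝ)) := by
    rw [hr, ← Real.rpow_natCast, ← Real.rpow_mul (by linarith)]
    congr 1
    push_cast
    ring
  have hrk : r ^ k = n := by
    rw [hr, ← Real.rpow_natCast, ← Real.rpow_mul (by linarith)]
    have : (1 : ℝ) / k * (k : ℝ) = 1 := by field_simp
    rw [this, Real.rpow_one]
  set m : ℕ := ⌊r⌋₊ with hm
  have hm1 : 1 ≤ m := by
    rw [hm]
    exact Nat.le_floor (by exact_mod_cast hr1)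
  have hmr : (m : ℝ) ≤ r := Nat.floor_le (by linarith)
  have hmr2 : r < (m : ℝ) + 1 := Nat.lt_floor_add_one r
  refine uniform_lattice k n m d hk hm1 ?_ ?_ hdn
  · have h1 : (n : ℝ) ≤ ((m : ℝ) + 1) ^ k := by
      rw [← hrk]
      exact pow_le_pow_left₀ (by linarith) hmr2.le k
    exact_mod_cast h1
  · rw [sumSqCount_eq] at hd
    refine le_trans (Finset.card_le_card (repF_mono ?_)) hd
    rw [Int.le_floor]
    rw [← hr2]
    have h2 : (m : ℝ) ^ 2 ≤ r ^ 2 := pow_le_pow_left₀ (by positivity) hmr 2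
    push_cast
    have h3 : (534534400000000 : ℝ) * (k : ℝ) * (m : ℝ) ^ 2 ≤
        (534534400000000 : ℝ) * k * r ^ 2 :=
      mul_le_mul_of_nonneg_left h2 (by positivity)
    linarith

/-- **The lattice range, uniformly in the dimension.** There is an absolute constant `C` such that for
all `k ≥ 2` and `n ≥ 2` every integer from the number of the sums of `k` squares up to `C k n^(2/k)` on
is attained. -/
theorem result : ∃ C : ℝ, 0 < C ∧ ∀ k n : ℕ, 2 ≤ k → 2 ≤ n → ∀ d : ℕ,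
    sumSqCount k (C * k * (n : ℝ) ^ ((2 : ℝ) / (k : ℝ))) ≤ d → d ≤ n.choose 2 →
      d ∈ valueSet k n := by
  refine ⟨((4 * 200 ^ 4 * 17 ^ 4 : ℕ) : ℝ), by positivity, ?_⟩
  intro k n hk hn d hd hdn
  exact mem_of_finset hk hn hdn fun h => case_c hk hn hd h

end Pool.Agent.Lib.MP_603301_co.Old.LatticeRange
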